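import Pool.Agent.Y871.LW.StmB

/-!
# Project LW, part B: contents of polynomials, and the sum of `1 / log |f(t)|`
-/

set_option autoImplicit false

open Finset

namespace Pool.Agent.Y737.LW

open Pool.Agent.TH892 (box pol pol_eval pol_natDegree)
open Pool.Agent.H300R2.FB (la)

/-- multiples of `p` in `[-H, H]` -/
theorem mult1 (H p : ℕ) (hp : 0 < p) :
    ((Icc (-(H : ℤ)) H).filter (fun x => (p : ℤ) ∣ x)).card ≤ 2 * (H / p) + 1 := by
  have hp' : (0 : ℤ) < p := by exact_mod_cast hp
  calc ((Icc (-(H : ℤ)) H).filter (fun x => (p : ℤ) ∣ x)).card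
      ≤ (Icc (-((H / p : ℕ) : ℤ)) ((H / p : ℕ) : ℤ)).card := by
        refine card_le_card_of_injOn (fun x => x / p) ?_ ?_
        · intro x hx
          rw [mem_coe, mem_filter, mem_Icc] at hx
          obtain ⟨⟨h1, h2⟩, y, rfl⟩ := hx
          rw [mem_coe, mem_Icc]
          simp only [Int.mul_ediv_cancel_left _ hp'.ne']
          push_cast
          constructor
          · have : -y ≤ (H : ℤ) / p := Int.le_ediv_of_mul_le hp' (by linarith)
            linarith
          · exact Int.le_ediv_of_mul_le hp' (by linarith)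
        · intro x hx x' hx' h
          rw [mem_coe, mem_filter] at hx hx'
          obtain ⟨_, y, rfl⟩ := hx
          obtain ⟨_, y', rfl⟩ := hx'
          simp only [Int.mul_ediv_cancel_left _ hp'.ne'] at h
          rw [h]
    _ = 2 * (H / p) + 1 := by
        rw [Int.card_Icc]
        generalize H / p = t
        omega

/-- multiples of `p` in `[1, H]` -/
theorem mult2 (H p : ℕ) (hp : 0 < p) :
    ((Icc 1 (H : ℤ)).filter (fun x => (p : ℤ) ∣ x)).card ≤ H / p := by
  have hp' : (0 : ℤ) < p := by exact_mod_cast hp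
  calc ((Icc 1 (H : ℤ)).filter (fun x => (p : ℤ) ∣ x)).card
      ≤ (Icc 1 ((H / p : ℕ) : ℤ)).card := by
        refine card_le_card_of_injOn (fun x => x / p) ?_ ?_
        · intro x hx
          rw [mem_coe, mem_filter, mem_Icc] at hx
          obtain ⟨⟨h1, h2⟩, y, rfl⟩ := hx
          rw [mem_coe, mem_Icc]
          simp only [Int.mul_ediv_cancel_left _ hp'.ne']
          push_cast
          constructor
          · by_contra hcon
            have : y ≤ 0 := by omega
            nlinarith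
          · exact Int.le_ediv_of_mul_le hp' (by linarith)
        · intro x hx x' hx' h
          rw [mem_coe, mem_filter] at hx hx'
          obtain ⟨_, y, rfl⟩ := hx
          obtain ⟨_, y', rfl⟩ := hx'
          simp only [Int.mul_ediv_cancel_left _ hp'.ne'] at h
          rw [h]
    _ = H / p := by
        rw [Int.card_Icc]
        generalize H / p = t
        omega

open Classical in
/-- the number of polynomials whose coefficients, except the constant one, are divisible by `p` -/
theorem box_dvd {j : ℕ} (hj : 2 ≤ j) (H p : ℕ) (hp : 2 ≤ p) (hpH : p ≤ H) :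
    (((box j H).filter (fun c => ∀ i : Fin (j + 1), 1 ≤ (i : ℕ) → (p : ℤ) ∣ c i)).card : ℝ) ≤
      4 * ((p : ℝ) ^ 2)⁻¹ * (box j H).card := by
  have hp0 : (0 : ℝ) < p := by
    have : 0 < p := by omega
    exact_mod_cast this
  have hdiv : (((H / p : ℕ) : ℝ)) ≤ (H : ℝ) / p := Nat.cast_div_le
  have hH : (p : ℝ) ≤ H := by exact_mod_cast hpH
  obtain ⟨B, hB⟩ : ∃ B : Fin (j + 1) → Finset ℤ,
      B = fun i : Fin (j + 1) => if (i : ℕ) = j then Icc 1 (H : ℤ) else Icc (-(H : ℤ)) H := ⟨_, rfl⟩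
  have hbox : box j H = Fintype.piFinset B := by rw [hB]; rfl
  have hsub : (box j H).filter (fun c => ∀ i : Fin (j + 1), 1 ≤ (i : ℕ) → (p : ℤ) ∣ c i) ⊆
      Fintype.piFinset (fun i => (B i).filter (fun x => 1 ≤ (i : ℕ) → (p : ℤ) ∣ x)) := by
    intro c hc
    rw [mem_filter, hbox, Fintype.mem_piFinset] at hc
    rw [Fintype.mem_piFinset]
    exact fun i => mem_filter.2 ⟨hc.1 i, hc.2 i⟩
  have hfac : ∀ i : Fin (j + 1), (((B i).filter (fun x => 1 ≤ (i : ℕ) → (p : ℤ) ∣ x)).card : ℝ) ≤
      (if 1 ≤ (i : ℕ) then (2 / p : ℝ) else 1) * ((B i).card : ℝ) := by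
    intro i
    by_cases h1 : 1 ≤ (i : ℕ)
    · rw [if_pos h1]
      have e : (B i).filter (fun x => 1 ≤ (i : ℕ) → (p : ℤ) ∣ x) =
          (B i).filter (fun x => (p : ℤ) ∣ x) := by
        refine filter_congr fun x _ => ?_
        exact ⟨fun h => h h1, fun h _ => h⟩
      rw [e, hB]
      simp only
      by_cases hij : (i : ℕ) = j
      · rw [if_pos hij]
        have h2 : (((Icc 1 (H : ℤ)).filter (fun x => (p : ℤ) ∣ x)).card : ℝ) ≤ ((H / p : ℕ) : ℝ) := by
          exact_mod_cast mult2 H p (by omega)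
        have h3 : ((Icc 1 (H : ℤ)).card : ℝ) = H := by
          rw [Int.card_Icc]
          simp
        rw [h3]
        calc (((Icc 1 (H : ℤ)).filter (fun x => (p : ℤ) ∣ x)).card : ℝ) ≤ (H : ℝ) / p := h2.trans hdiv
          _ ≤ 2 / p * H := by
            rw [div_mul_eq_mul_div]
            gcongr
            have : (0 : ℝ) ≤ H := Nat.cast_nonneg H
            linarith
      · rw [if_neg hij]
        have h2 : (((Icc (-(H : ℤ)) H).filter (fun x => (p : ℤ) ∣ x)).card : ℝ) ≤
            2 * ((H / p : ℕ) : ℝ) + 1 := by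
          exact_mod_cast mult1 H p (by omega)
        have h3 : ((Icc (-(H : ℤ)) H).card : ℝ) = 2 * H + 1 := by
          rw [Int.card_Icc]
          have : ((H : ℤ) + 1 - -(H : ℤ)).toNat = 2 * H + 1 := by omega
          rw [this]
          push_cast
          ring
        rw [h3]
        calc (((Icc (-(H : ℤ)) H).filter (fun x => (p : ℤ) ∣ x)).card : ℝ)
            ≤ 2 * ((H : ℝ) / p) + 1 := h2.trans (by linarith)
          _ ≤ 2 / p * (2 * H + 1) := by
            rw [div_mul_eq_mul_div, le_div_iff₀ hp0, add_mul, mul_assoc, div_mul_cancel₀ _ hp0.ne']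
            linarith
    · rw [if_neg h1, one_mul]
      exact_mod_cast card_le_card (filter_subset _ _)
  have h2p : (2 / p : ℝ) ≤ 1 := by
    rw [div_le_one hp0]
    exact_mod_cast hp
  calc (((box j H).filter (fun c => ∀ i : Fin (j + 1), 1 ≤ (i : ℕ) → (p : ℤ) ∣ c i)).card : ℝ)
      ≤ ((Fintype.piFinset (fun i => (B i).filter (fun x => 1 ≤ (i : ℕ) → (p : ℤ) ∣ x))).card : ℝ) := by
        exact_mod_cast card_le_card hsub
    _ = ∏ i, (((B i).filter (fun x => 1 ≤ (i : ℕ) → (p : ℤ) ∣ x)).card : ℝ) := by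
        rw [Fintype.card_piFinset]
        push_cast
        rfl
    _ ≤ ∏ i : Fin (j + 1), ((if 1 ≤ (i : ℕ) then (2 / p : ℝ) else 1) * ((B i).card : ℝ)) :=
        prod_le_prod (fun i _ => Nat.cast_nonneg _) fun i _ => hfac i
    _ = (2 / p : ℝ) ^ j * (box j H).card := by
        have e : ∏ i : Fin (j + 1), (if 1 ≤ (i : ℕ) then (2 / p : ℝ) else 1) = (2 / p : ℝ) ^ j := by
          rw [Fin.prod_univ_succ]
          simp [div_pow]
        rw [prod_mul_distrib, e, hbox, Fintype.card_piFinset]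
        push_cast
        rfl
    _ ≤ (2 / p : ℝ) ^ 2 * (box j H).card := by
        refine mul_le_mul_of_nonneg_right ?_ (Nat.cast_nonneg _)
        exact pow_le_pow_of_le_one (by positivity) h2p hj
    _ = 4 * ((p : ℝ) ^ 2)⁻¹ * (box j H).card := by
        rw [div_pow]
        ring

open Classical in
theorem t_CONT : Pool.Agent.Y871.LW.S_CONT := by
  intro j hj η hη
  obtain ⟨p₀, hp₀⟩ := exists_nat_gt (8 / η)
  have hp₀' : 0 < p₀ := by
    have h1 : (0 : ℝ) < p₀ := lt_trans (by positivity) hp₀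
    exact_mod_cast h1
  refine ⟨p₀, 0, fun H _ => ?_⟩
  have hsub : (box j H).filter (fun c => ∃ p : ℕ, p.Prime ∧ p₀ < p ∧ ∀ i : Fin (j + 1),
      1 ≤ (i : ℕ) → (p : ℤ) ∣ c i) ⊆ (Ioo p₀ (H + 1)).biUnion (fun p =>
        (box j H).filter (fun c => ∀ i : Fin (j + 1), 1 ≤ (i : ℕ) → (p : ℤ) ∣ c i)) := by
    intro c hc
    rw [mem_filter] at hc
    obtain ⟨hc, p, hp, hpp, hd⟩ := hc
    rw [mem_biUnion]
    refine ⟨p, ?_, mem_filter.2 ⟨hc, hd⟩⟩
    rw [mem_Ioo]
    refine ⟨hpp, ?_⟩
    have h1 := hd (Fin.last j) (by rw [Fin.val_last]; omega)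
    unfold Pool.Agent.TH892.box at hc
    rw [Fintype.mem_piFinset] at hc
    have h2 := hc (Fin.last j)
    rw [Fin.val_last, if_pos rfl, mem_Icc] at h2
    have h3 := Int.le_of_dvd (by omega) h1
    omega
  have hcard := (card_le_card hsub).trans card_biUnion_le
  calc (((box j H).filter (fun c => ∃ p : ℕ, p.Prime ∧ p₀ < p ∧ ∀ i : Fin (j + 1), 1 ≤ (i : ℕ) →
        (p : ℤ) ∣ c i)).card : ℝ)
      ≤ ∑ p ∈ Ioo p₀ (H + 1), (((box j H).filter (fun c => ∀ i : Fin (j + 1), 1 ≤ (i : ℕ) →
          (p : ℤ) ∣ c i)).card : ℝ) := by exact_mod_cast hcard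
    _ ≤ ∑ p ∈ Ioo p₀ (H + 1), 4 * ((p : ℝ) ^ 2)⁻¹ * (box j H).card := by
        refine sum_le_sum fun p hp => ?_
        rw [mem_Ioo] at hp
        exact box_dvd hj H p (by omega) (by omega)
    _ = 4 * (∑ p ∈ Ioo p₀ (H + 1), ((p : ℝ) ^ 2)⁻¹) * (box j H).card := by
        rw [mul_sum, sum_mul]
    _ ≤ 4 * (2 / ((p₀ : ℝ) + 1)) * (box j H).card := by
        refine mul_le_mul_of_nonneg_right ?_ (Nat.cast_nonneg _)
        exact mul_le_mul_of_nonneg_left (sum_Ioo_inv_sq_le p₀ (H + 1)) (by norm_num)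
    _ ≤ η * (box j H).card := by
        refine mul_le_mul_of_nonneg_right ?_ (Nat.cast_nonneg _)
        rw [← mul_div_assoc, div_le_iff₀ (by positivity)]
        rw [div_lt_iff₀ hη] at hp₀
        nlinarith

theorem t_LA : Pool.Agent.Y871.LW.S_LA := by
  classical
  intro j hj
  refine ⟨1 / (2 * (j + 2)), by positivity, 6 * j + 2, ?_⟩
  intro H hH c hc K hK hKH
  have hH1 : (1 : ℝ) < H := by
    have : 1 < H := by omega
    exact_mod_cast this
  have hlog : 0 < Real.log H := Real.log_pos hH1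
  have hdeg := pol_natDegree hc
  have hc' : ∀ i, |c i| ≤ H := by
    intro i
    unfold Pool.Agent.TH892.box at hc
    rw [Fintype.mem_piFinset] at hc
    have h1 := hc i
    rw [abs_le]
    split_ifs at h1 with hij
    · rw [mem_Icc] at h1
      constructor <;> omega
    · rw [mem_Icc] at h1
      exact h1
  -- the values are at most `H ^ (j + 2)`
  have hval : ∀ k ∈ Icc 1 K, |((pol c).eval (k : ℤ))| ≤ (H : ℤ) ^ (j + 2) := by
    intro k hk
    rw [mem_Icc] at hk
    have hkH : (k : ℤ) ≤ H := by exact_mod_cast hk.2.trans hKH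
    have hH1' : (1 : ℤ) ≤ H := by
      have : 1 ≤ H := by omega
      exact_mod_cast this
    rw [pol_eval]
    calc |∑ i : Fin (j + 1), c i * (k : ℤ) ^ (i : ℕ)|
        ≤ ∑ i : Fin (j + 1), |c i * (k : ℤ) ^ (i : ℕ)| := abs_sum_le_sum_abs _ _
      _ ≤ ∑ _i : Fin (j + 1), (H : ℤ) * (H : ℤ) ^ j := by
          refine sum_le_sum fun i _ => ?_
          rw [abs_mul, abs_pow, abs_of_nonneg (Int.natCast_nonneg k)]
          refine mul_le_mul (hc' i) ?_ (by positivity) (by positivity)
          calc (k : ℤ) ^ (i : ℕ) ≤ (H : ℤ) ^ (i : ℕ) :=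
                pow_le_pow_left₀ (Int.natCast_nonneg k) hkH _
            _ ≤ (H : ℤ) ^ j := pow_le_pow_right₀ hH1' (by have := i.2; omega)
      _ = ((j : ℤ) + 1) * ((H : ℤ) * (H : ℤ) ^ j) := by simp
      _ ≤ (H : ℤ) * ((H : ℤ) * (H : ℤ) ^ j) := by
          refine mul_le_mul_of_nonneg_right ?_ (by positivity)
          have : j + 1 ≤ H := by omega
          exact_mod_cast this
      _ = (H : ℤ) ^ (j + 2) := by ring
  -- few values are small
  have hroots : ∀ a : ℤ, ((Icc 1 K).filter (fun k : ℕ => (pol c).eval (k : ℤ) = a)).card ≤ j := by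
    intro a
    have hd : 0 < (pol c).degree := by
      rw [Polynomial.natDegree_pos_iff_degree_pos.symm, hdeg]
      omega
    calc ((Icc 1 K).filter (fun k : ℕ => (pol c).eval (k : ℤ) = a)).card
        ≤ ((pol c) - Polynomial.C a).roots.toFinset.card := by
          refine card_le_card_of_injOn (fun k => (k : ℤ)) ?_ ?_
          · intro k hk
            rw [mem_coe, mem_filter] at hk
            rw [mem_coe, Multiset.mem_toFinset, Polynomial.mem_roots_sub_C hd]
            exact hk.2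
          · intro k _ k' _ h
            exact Int.ofNat_injective h
      _ ≤ ((pol c) - Polynomial.C a).roots.card := Multiset.toFinset_card_le _
      _ ≤ (pol c).natDegree := Polynomial.card_roots_sub_C' hd
      _ = j := hdeg
  have hsmall : ((Icc 1 K).filter (fun k : ℕ => ¬ 2 ≤ |(pol c).eval (k : ℤ)|)).card ≤ 3 * j := by
    calc ((Icc 1 K).filter (fun k : ℕ => ¬ 2 ≤ |(pol c).eval (k : ℤ)|)).card
        ≤ (((Icc 1 K).filter (fun k : ℕ => (pol c).eval (k : ℤ) = 0)) ∪
          (((Icc 1 K).filter (fun k : ℕ => (pol c).eval (k : ℤ) = 1)) ∪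
            ((Icc 1 K).filter (fun k : ℕ => (pol c).eval (k : ℤ) = -1)))).card := by
          refine card_le_card fun k hk => ?_
          rw [mem_filter] at hk
          simp only [mem_union, mem_filter]
          have h1 : |(pol c).eval (k : ℤ)| ≤ 1 := by omega
          rw [abs_le] at h1
          have h2 : (pol c).eval (k : ℤ) = 0 ∨ (pol c).eval (k : ℤ) = 1 ∨
              (pol c).eval (k : ℤ) = -1 := by omega
          rcases h2 with h2 | h2 | h2
          · exact Or.inl ⟨hk.1, h2⟩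
          · exact Or.inr (Or.inl ⟨hk.1, h2⟩)
          · exact Or.inr (Or.inr ⟨hk.1, h2⟩)
      _ ≤ j + (j + j) := (card_union_le _ _).trans (Nat.add_le_add (hroots 0)
          ((card_union_le _ _).trans (Nat.add_le_add (hroots 1) (hroots (-1)))))
      _ = 3 * j := by ring
  have hmany : (K : ℝ) / 2 ≤ (((Icc 1 K).filter (fun k : ℕ => 2 ≤ |(pol c).eval (k : ℤ)|)).card : ℝ) := by
    have h1 := card_filter_add_card_filter_not (s := Icc 1 K)
      (fun k : ℕ => 2 ≤ |(pol c).eval (k : ℤ)|)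
    rw [Nat.card_Icc, Nat.add_sub_cancel] at h1
    have h2 : K ≤ 2 * ((Icc 1 K).filter (fun k : ℕ => 2 ≤ |(pol c).eval (k : ℤ)|)).card := by
      omega
    have h3 : (K : ℝ) ≤ 2 * (((Icc 1 K).filter (fun k : ℕ => 2 ≤ |(pol c).eval (k : ℤ)|)).card : ℝ) := by
      exact_mod_cast h2
    linarith
  unfold la
  calc 1 / (2 * ((j : ℝ) + 2)) * K / Real.log H
      = (K : ℝ) / 2 * (1 / (((j : ℝ) + 2) * Real.log H)) := by
        field_simp
    _ ≤ (((Icc 1 K).filter (fun k : ℕ => 2 ≤ |(pol c).eval (k : ℤ)|)).card : ℝ) *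
        (1 / (((j : ℝ) + 2) * Real.log H)) :=
        mul_le_mul_of_nonneg_right hmany (by positivity)
    _ = ∑ _k ∈ (Icc 1 K).filter (fun k : ℕ => 2 ≤ |(pol c).eval (k : ℤ)|),
        1 / (((j : ℝ) + 2) * Real.log H) := by
        rw [sum_const, nsmul_eq_mul]
    _ ≤ _ := by
        refine sum_le_sum fun k hk => ?_
        rw [mem_filter] at hk
        have h1 : (2 : ℝ) ≤ |(((pol c).eval (k : ℤ) : ℤ) : ℝ)| := by exact_mod_cast hk.2
        have h2 : |(((pol c).eval (k : ℤ) : ℤ) : ℝ)| ≤ (H : ℝ) ^ (j + 2) := by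
          exact_mod_cast hval k hk.1
        have h3 : 0 < Real.log |(((pol c).eval (k : ℤ) : ℤ) : ℝ)| := Real.log_pos (by linarith)
        refine one_div_le_one_div_of_le h3 ?_
        calc Real.log |(((pol c).eval (k : ℤ) : ℤ) : ℝ)| ≤ Real.log ((H : ℝ) ^ (j + 2)) :=
              Real.log_le_log (by linarith) h2
          _ = ((j : ℝ) + 2) * Real.log H := by
              rw [Real.log_pow]
              push_cast
              ring

end Pool.Agent.Y737.LW
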