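import Pool.Agent.Y871.LW.StmD

/-!
# The cut product of a quadratic polynomial in the notation of Conjecture F
-/

set_option autoImplicit false

open Finset Polynomial Filter Topology

namespace Pool.Agent.Y737.LW

open Pool.Agent.W468.ConjF (Admissible CF)
open Pool.Agent.TH204.WR (hh)

/-- (QC1) the cut product -/
theorem t_QC1 : Pool.Agent.Y871.LW.S_QC1 := by
  intro a b c h z hz
  rw [← Pool.Agent.W468.ConjF.euler_eq a b c h z hz (fun _ => Pool.Agent.W468.ConjF.P a b c)
    (fun _ => rfl)]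
  unfold hh Pool.Agent.H373R2.T7.Vz Pool.Agent.H373R2.BH.eulerProduct
  rw [← prod_inv_distrib, ← prod_mul_distrib]
  have hs : (range (z + 1)).filter Nat.Prime = Pool.Agent.H373R2.T7.pz z := by
    ext p
    unfold Pool.Agent.H373R2.T7.pz
    rw [mem_filter, mem_filter, mem_range, mem_Icc]
    constructor
    · rintro ⟨h1, h2⟩
      exact ⟨⟨h2.one_le, by omega⟩, h2⟩
    · rintro ⟨⟨h1, h3⟩, h2⟩
      exact ⟨by omega, h2⟩
  rw [hs]
  apply prod_congr rfl
  intro p hp
  have e : Pool.Agent.TH204.WR.rho (C a * X ^ 2 + C b * X) c p =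
      Pool.Agent.H373R2.BH.omegaP (fun _ : Fin 1 => Pool.Agent.W468.ConjF.P a b c) p := by
    classical
    unfold Pool.Agent.TH204.WR.rho Pool.Agent.H373R2.BH.omegaP
    congr 1
    apply filter_congr
    intro r _
    simp only [exists_const]
    rw [Pool.Agent.W468.ConjF.eval_P]
    have e2 : (C a * X ^ 2 + C b * X : ℤ[X]).eval (r : ℤ) + c = a * (r : ℤ) ^ 2 + b * r + c := by
      simp
    rw [e2]
  rw [e, pow_one]

end Pool.Agent.Y737.LW
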